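import Mathlib

namespace Pool.Agent.Results.MP_92f261_al.No

open CategoryTheory CategoryTheory.Abelian

universe u

set_option linter.unusedSimpArgs false
set_option linter.unusedSectionVars false

section general

variable {R : Type u} [Ring R]

theorem ext_vanish (x y z : R) (hzx : z * x = 0) (hxy : x * y = 0)
    (h : ∀ t, z * t * y = 0 → ∃ r s, t = r * x + x * s) :
    Subsingleton (Ext.{u} (ModuleCat.of R (R ⧸ Submodule.span R {x}))
      (ModuleCat.of R (R ⧸ Submodule.span R {x})) 1) := by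
  set N : Submodule R R := Submodule.span R {x} with hN
  let S : ShortComplex (ModuleCat.{u} R) :=
    ShortComplex.mk (ModuleCat.ofHom N.subtype) (ModuleCat.ofHom N.mkQ) (by
      ext w
      simp)
  have hS : S.ShortExact := by
    refine ModuleCat.shortComplex_shortExact S ?_ ?_ ?_
    · exact LinearMap.exact_subtype_mkQ N
    · exact N.injective_subtype
    · exact N.mkQ_surjective
  have hP : Projective S.X₂ := by
    change Projective (ModuleCat.of R R)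
    infer_instance
  have key : ∀ e : Ext.{u} S.X₃ S.X₃ 1, e = 0 := by
    intro e
    obtain ⟨f, hf⟩ := Ext.contravariant_sequence_exact₃ hS S.X₃ e
      (Ext.eq_zero_of_projective _) (n₀ := 0) rfl
    obtain ⟨f, rfl⟩ := (Ext.mk₀_bijective _ _).2 f
    have hxN : x ∈ N := Submodule.mem_span_singleton_self x
    obtain ⟨t, ht⟩ := N.mkQ_surjective (f.hom ⟨x, hxN⟩)
    have h1 : z * t ∈ N := by
      have h2 : z • f.hom ⟨x, hxN⟩ = 0 := by
        rw [← f.hom.map_smul]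
        have : z • (⟨x, hxN⟩ : N) = 0 := Subtype.ext hzx
        exact (congrArg f.hom this).trans f.hom.map_zero
      have h3 : N.mkQ (z * t) = 0 := by
        rw [← smul_eq_mul, N.mkQ.map_smul, ht]
        exact h2
      exact (Submodule.Quotient.mk_eq_zero N).1 h3
    obtain ⟨c, hc⟩ := Submodule.mem_span_singleton.1 h1
    obtain ⟨r, s, hrs⟩ := h t (by rw [← hc, smul_eq_mul, mul_assoc, hxy, mul_zero])
    let g : S.X₂ ⟶ S.X₃ := ModuleCat.ofHom (LinearMap.toSpanSingleton R (R ⧸ N) (N.mkQ s))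
    have hg : f = S.f ≫ g := by
      ext w
      obtain ⟨w, hw⟩ := w
      obtain ⟨d, rfl⟩ := Submodule.mem_span_singleton.1 hw
      have e1 : (⟨d • x, hw⟩ : N) = d • (⟨x, hxN⟩ : N) := rfl
      have e2 : f.hom ⟨d • x, hw⟩ = d • N.mkQ t := by
        rw [ht, ← f.hom.map_smul]
        rfl
      have e3 : N.mkQ t = N.mkQ (x * s) := by
        rw [hrs, map_add]
        have : N.mkQ (r * x) = 0 :=
          (Submodule.Quotient.mk_eq_zero N).2 (N.smul_mem r hxN)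
        rw [this, zero_add]
      change f.hom ⟨d • x, hw⟩ = (d • x) • N.mkQ s
      rw [e2, e3, ← smul_eq_mul, N.mkQ.map_smul, smul_eq_mul, mul_smul]
    rw [← hf, hg, ← Ext.mk₀_comp_mk₀]
    exact hS.extClass_comp_assoc _
  exact ⟨fun a b => (key a).trans (key b).symm⟩

theorem not_proj (x : R) (h : ∀ r, x + x * r * x ≠ 0) :
    ¬ Module.Projective R (R ⧸ Submodule.span R {x}) := by
  intro hp
  set N : Submodule R R := Submodule.span R {x} with hN
  obtain ⟨s, hs⟩ := Module.projective_lifting_property N.mkQ LinearMap.id N.mkQ_surjective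
  have hxN : x ∈ N := Submodule.mem_span_singleton_self x
  have h1 : N.mkQ (s (N.mkQ 1)) = N.mkQ 1 := LinearMap.congr_fun hs (N.mkQ 1)
  have h2 : s (N.mkQ 1) - 1 ∈ N := (Submodule.Quotient.eq N).1 h1
  obtain ⟨r, hr⟩ := Submodule.mem_span_singleton.1 h2
  have h3 : x * s (N.mkQ 1) = 0 := by
    rw [← smul_eq_mul, ← s.map_smul, ← N.mkQ.map_smul, smul_eq_mul, mul_one]
    have : N.mkQ x = 0 := (Submodule.Quotient.mk_eq_zero N).2 hxN
    rw [this, s.map_zero]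
  apply h r
  have h4 : s (N.mkQ 1) = 1 + r * x := by
    rw [← smul_eq_mul, hr]; abel
  rw [h4, mul_add, mul_one, ← mul_assoc] at h3
  exact h3

theorem inj_of_symm {k A : Type u} [Field k] [Ring A] [Algebra k A]
    (φ : A ≃ₗ[k] Module.Dual k A)
    (hφ : ∀ a b c x : A, φ (a * c * b) x = φ c (b * x * a)) : Module.Injective Aᵐᵒᵖ A := by
  apply Module.Baer.injective
  intro I g
  let lam : A →ₗ[k] k := φ 1
  have hl : ∀ c x, φ c x = lam (x * c) := by
    intro c x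
    have := hφ c 1 1 x
    simpa using this
  have hl2 : ∀ c x, φ c x = lam (c * x) := by
    intro c x
    have := hφ 1 c 1 x
    simpa using this
  let g' : (I.restrictScalars k) →ₗ[k] k :=
    { toFun := fun r => lam (g ⟨r.1, r.2⟩)
      map_add' := by
        intro a b
        rw [← map_add, ← map_add]; rfl
      map_smul' := by
        intro c a
        have e : (⟨(c • a).1, (c • a).2⟩ : I) = (algebraMap k Aᵐᵒᵖ c) • (⟨a.1, a.2⟩ : I) := by
          apply Subtype.ext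
          change c • a.1 = (algebraMap k Aᵐᵒᵖ c) * a.1
          exact Algebra.smul_def c a.1
        rw [e, g.map_smul, algebraMap_smul, map_smul]
        rfl }
  obtain ⟨mu, hmu⟩ := LinearMap.exists_extend g'
  let c : A := φ.symm (mu ∘ₗ (MulOpposite.opLinearEquiv k).toLinearMap)
  refine ⟨LinearMap.toSpanSingleton Aᵐᵒᵖ A c, ?_⟩
  intro r hr
  apply φ.injective
  ext a
  have e1 : φ (r • c) a = φ c (r.unop * a) := by
    rw [hl2 (r • c), hl2 c, MulOpposite.smul_eq_mul_unop, mul_assoc]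
  have e2 : φ c (r.unop * a) = mu (MulOpposite.op a * r) := by
    simp [c]
  have hm : MulOpposite.op a * r ∈ I := I.mul_mem_left _ hr
  have e3 : mu (MulOpposite.op a * r) = lam (g ⟨_, hm⟩) :=
    LinearMap.congr_fun hmu ⟨_, hm⟩
  have e4 : g ⟨_, hm⟩ = g ⟨r, hr⟩ * a := by
    have : (⟨_, hm⟩ : I) = MulOpposite.op a • (⟨r, hr⟩ : I) := rfl
    rw [this, g.map_smul]; rfl
  rw [LinearMap.toSpanSingleton_apply, e1, e2, e3, e4, hl2 (g ⟨r, hr⟩)]

end general

/-- coordinates in the basis 1, a, b, c, aa, ac, ba, cb, aac, acb, baa, aacb -/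
def Alg (k : Type u) : Type u := Fin 12 → k

variable {k : Type u} [Field k]

instance : AddCommGroup (Alg k) := inferInstanceAs (AddCommGroup (Fin 12 → k))
instance : Module k (Alg k) := inferInstanceAs (Module k (Fin 12 → k))
instance : Module.Finite k (Alg k) := inferInstanceAs (Module.Finite k (Fin 12 → k))

def mk (f : Fin 12 → k) : Alg k := f

def ml (u v : Alg k) : Alg k := mk ![
  u 0 * v 0,
  u 0 * v 1 + u 1 * v 0,
  u 0 * v 2 + u 2 * v 0,
  u 0 * v 3 + u 3 * v 0,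
  u 0 * v 4 + u 1 * v 1 - u 2 * v 2 - u 3 * v 1 + u 3 * v 3 + u 4 * v 0,
  u 0 * v 5 + u 1 * v 3 + u 5 * v 0,
  u 0 * v 6 + u 2 * v 1 - u 2 * v 2 - u 3 * v 1 + u 3 * v 3 + u 6 * v 0,
  u 0 * v 7 + u 3 * v 2 - u 3 * v 3 + u 7 * v 0,
  u 0 * v 8 + u 1 * v 5 - u 2 * v 5 + u 3 * v 6 + u 3 * v 7 + u 4 * v 3 - u 6 * v 3 + u 7 * v 1 - u 7 * v 2 + u 8 * v 0,
  u 0 * v 9 + u 1 * v 7 + u 3 * v 6 + u 3 * v 7 + u 5 * v 2 - u 5 * v 3 + u 7 * v 1 - u 7 * v 2 + u 9 * v 0,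
  u 0 * v 10 + u 2 * v 4 - u 2 * v 6 - u 3 * v 4 + 2 * (u 3 * v 6) + u 3 * v 7 + u 6 * v 1 + 2 * (u 7 * v 1) - u 7 * v 2 + u 10 * v 0,
  u 0 * v 11 + u 1 * v 9 + u 2 * v 8 - u 2 * v 9 - u 3 * v 8 + u 3 * v 10 + u 4 * v 7 + u 5 * v 6 + u 5 * v 7 + u 6 * v 5 - u 6 * v 7 + u 7 * v 4 + u 7 * v 5 - u 7 * v 6 + u 8 * v 2 - u 8 * v 3 + u 9 * v 1 - u 9 * v 2 + u 10 * v 3 + u 11 * v 0]

instance : Mul (Alg k) := ⟨ml⟩
instance : One (Alg k) := ⟨mk ![1, 0, 0, 0, 0, 0, 0, 0, 0, 0, 0, 0]⟩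

theorem add_ap (u v : Alg k) (i : Fin 12) : (u + v) i = u i + v i := rfl
theorem sub_ap (u v : Alg k) (i : Fin 12) : (u - v) i = u i - v i := rfl
theorem neg_ap (u : Alg k) (i : Fin 12) : (-u) i = -u i := rfl
theorem zero_ap (i : Fin 12) : (0 : Alg k) i = 0 := rfl
theorem smul_ap (c : k) (u : Alg k) (i : Fin 12) : (c • u) i = c * u i := rfl
theorem mul0 (u v : Alg k) : (u * v) 0 = u 0 * v 0 := rfl
theorem one0 : (1 : Alg k) 0 = 1 := rfl
theorem mk0 (x0 x1 x2 x3 x4 x5 x6 x7 x8 x9 x10 x11 : k) : mk ![x0, x1, x2, x3, x4, x5, x6, x7, x8, x9, x10, x11] 0 = x0 := rfl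
theorem mul1 (u v : Alg k) : (u * v) 1 = u 0 * v 1 + u 1 * v 0 := rfl
theorem one1 : (1 : Alg k) 1 = 0 := rfl
theorem mk1 (x0 x1 x2 x3 x4 x5 x6 x7 x8 x9 x10 x11 : k) : mk ![x0, x1, x2, x3, x4, x5, x6, x7, x8, x9, x10, x11] 1 = x1 := rfl
theorem mul2 (u v : Alg k) : (u * v) 2 = u 0 * v 2 + u 2 * v 0 := rfl
theorem one2 : (1 : Alg k) 2 = 0 := rfl
theorem mk2 (x0 x1 x2 x3 x4 x5 x6 x7 x8 x9 x10 x11 : k) : mk ![x0, x1, x2, x3, x4, x5, x6, x7, x8, x9, x10, x11] 2 = x2 := rfl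
theorem mul3 (u v : Alg k) : (u * v) 3 = u 0 * v 3 + u 3 * v 0 := rfl
theorem one3 : (1 : Alg k) 3 = 0 := rfl
theorem mk3 (x0 x1 x2 x3 x4 x5 x6 x7 x8 x9 x10 x11 : k) : mk ![x0, x1, x2, x3, x4, x5, x6, x7, x8, x9, x10, x11] 3 = x3 := rfl
theorem mul4 (u v : Alg k) : (u * v) 4 = u 0 * v 4 + u 1 * v 1 - u 2 * v 2 - u 3 * v 1 + u 3 * v 3 + u 4 * v 0 := rfl
theorem one4 : (1 : Alg k) 4 = 0 := rfl
theorem mk4 (x0 x1 x2 x3 x4 x5 x6 x7 x8 x9 x10 x11 : k) : mk ![x0, x1, x2, x3, x4, x5, x6, x7, x8, x9, x10, x11] 4 = x4 := rfl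
theorem mul5 (u v : Alg k) : (u * v) 5 = u 0 * v 5 + u 1 * v 3 + u 5 * v 0 := rfl
theorem one5 : (1 : Alg k) 5 = 0 := rfl
theorem mk5 (x0 x1 x2 x3 x4 x5 x6 x7 x8 x9 x10 x11 : k) : mk ![x0, x1, x2, x3, x4, x5, x6, x7, x8, x9, x10, x11] 5 = x5 := rfl
theorem mul6 (u v : Alg k) : (u * v) 6 = u 0 * v 6 + u 2 * v 1 - u 2 * v 2 - u 3 * v 1 + u 3 * v 3 + u 6 * v 0 := rfl
theorem one6 : (1 : Alg k) 6 = 0 := rfl
theorem mk6 (x0 x1 x2 x3 x4 x5 x6 x7 x8 x9 x10 x11 : k) : mk ![x0, x1, x2, x3, x4, x5, x6, x7, x8, x9, x10, x11] 6 = x6 := rfl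
theorem mul7 (u v : Alg k) : (u * v) 7 = u 0 * v 7 + u 3 * v 2 - u 3 * v 3 + u 7 * v 0 := rfl
theorem one7 : (1 : Alg k) 7 = 0 := rfl
theorem mk7 (x0 x1 x2 x3 x4 x5 x6 x7 x8 x9 x10 x11 : k) : mk ![x0, x1, x2, x3, x4, x5, x6, x7, x8, x9, x10, x11] 7 = x7 := rfl
theorem mul8 (u v : Alg k) : (u * v) 8 = u 0 * v 8 + u 1 * v 5 - u 2 * v 5 + u 3 * v 6 + u 3 * v 7 + u 4 * v 3 - u 6 * v 3 + u 7 * v 1 - u 7 * v 2 + u 8 * v 0 := rfl
theorem one8 : (1 : Alg k) 8 = 0 := rfl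
theorem mk8 (x0 x1 x2 x3 x4 x5 x6 x7 x8 x9 x10 x11 : k) : mk ![x0, x1, x2, x3, x4, x5, x6, x7, x8, x9, x10, x11] 8 = x8 := rfl
theorem mul9 (u v : Alg k) : (u * v) 9 = u 0 * v 9 + u 1 * v 7 + u 3 * v 6 + u 3 * v 7 + u 5 * v 2 - u 5 * v 3 + u 7 * v 1 - u 7 * v 2 + u 9 * v 0 := rfl
theorem one9 : (1 : Alg k) 9 = 0 := rfl
theorem mk9 (x0 x1 x2 x3 x4 x5 x6 x7 x8 x9 x10 x11 : k) : mk ![x0, x1, x2, x3, x4, x5, x6, x7, x8, x9, x10, x11] 9 = x9 := rfl
theorem mul10 (u v : Alg k) : (u * v) 10 = u 0 * v 10 + u 2 * v 4 - u 2 * v 6 - u 3 * v 4 + 2 * (u 3 * v 6) + u 3 * v 7 + u 6 * v 1 + 2 * (u 7 * v 1) - u 7 * v 2 + u 10 * v 0 := rfl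
theorem one10 : (1 : Alg k) 10 = 0 := rfl
theorem mk10 (x0 x1 x2 x3 x4 x5 x6 x7 x8 x9 x10 x11 : k) : mk ![x0, x1, x2, x3, x4, x5, x6, x7, x8, x9, x10, x11] 10 = x10 := rfl
theorem mul11 (u v : Alg k) : (u * v) 11 = u 0 * v 11 + u 1 * v 9 + u 2 * v 8 - u 2 * v 9 - u 3 * v 8 + u 3 * v 10 + u 4 * v 7 + u 5 * v 6 + u 5 * v 7 + u 6 * v 5 - u 6 * v 7 + u 7 * v 4 + u 7 * v 5 - u 7 * v 6 + u 8 * v 2 - u 8 * v 3 + u 9 * v 1 - u 9 * v 2 + u 10 * v 3 + u 11 * v 0 := rfl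
theorem one11 : (1 : Alg k) 11 = 0 := rfl
theorem mk11 (x0 x1 x2 x3 x4 x5 x6 x7 x8 x9 x10 x11 : k) : mk ![x0, x1, x2, x3, x4, x5, x6, x7, x8, x9, x10, x11] 11 = x11 := rfl

theorem ext12 {u v : Alg k} (h0 : u 0 = v 0) (h1 : u 1 = v 1) (h2 : u 2 = v 2) (h3 : u 3 = v 3) (h4 : u 4 = v 4) (h5 : u 5 = v 5) (h6 : u 6 = v 6) (h7 : u 7 = v 7) (h8 : u 8 = v 8) (h9 : u 9 = v 9) (h10 : u 10 = v 10) (h11 : u 11 = v 11) : u = v := by
  funext i
  fin_cases i <;> assumption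

theorem assoc' (u v w : Alg k) : u * v * w = u * (v * w) := by
  apply ext12 <;> simp only [add_ap, sub_ap, neg_ap, zero_ap, smul_ap, mul0, one0, mk0, mul1, one1, mk1, mul2, one2, mk2, mul3, one3, mk3, mul4, one4, mk4, mul5, one5, mk5, mul6, one6, mk6, mul7, one7, mk7, mul8, one8, mk8, mul9, one9, mk9, mul10, one10, mk10, mul11, one11, mk11] <;> ring

theorem ldist (u v w : Alg k) : u * (v + w) = u * v + u * w := by
  apply ext12 <;> simp only [add_ap, sub_ap, neg_ap, zero_ap, smul_ap, mul0, one0, mk0, mul1, one1, mk1, mul2, one2, mk2, mul3, one3, mk3, mul4, one4, mk4, mul5, one5, mk5, mul6, one6, mk6, mul7, one7, mk7, mul8, one8, mk8, mul9, one9, mk9, mul10, one10, mk10, mul11, one11, mk11] <;> ring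

theorem rdist (u v w : Alg k) : (u + v) * w = u * w + v * w := by
  apply ext12 <;> simp only [add_ap, sub_ap, neg_ap, zero_ap, smul_ap, mul0, one0, mk0, mul1, one1, mk1, mul2, one2, mk2, mul3, one3, mk3, mul4, one4, mk4, mul5, one5, mk5, mul6, one6, mk6, mul7, one7, mk7, mul8, one8, mk8, mul9, one9, mk9, mul10, one10, mk10, mul11, one11, mk11] <;> ring

theorem zmul (u : Alg k) : 0 * u = 0 := by
  apply ext12 <;> simp only [add_ap, sub_ap, neg_ap, zero_ap, smul_ap, mul0, one0, mk0, mul1, one1, mk1, mul2, one2, mk2, mul3, one3, mk3, mul4, one4, mk4, mul5, one5, mk5, mul6, one6, mk6, mul7, one7, mk7, mul8, one8, mk8, mul9, one9, mk9, mul10, one10, mk10, mul11, one11, mk11] <;> ring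

theorem mulz (u : Alg k) : u * 0 = 0 := by
  apply ext12 <;> simp only [add_ap, sub_ap, neg_ap, zero_ap, smul_ap, mul0, one0, mk0, mul1, one1, mk1, mul2, one2, mk2, mul3, one3, mk3, mul4, one4, mk4, mul5, one5, mk5, mul6, one6, mk6, mul7, one7, mk7, mul8, one8, mk8, mul9, one9, mk9, mul10, one10, mk10, mul11, one11, mk11] <;> ring

theorem omul (u : Alg k) : 1 * u = u := by
  apply ext12 <;> simp only [add_ap, sub_ap, neg_ap, zero_ap, smul_ap, mul0, one0, mk0, mul1, one1, mk1, mul2, one2, mk2, mul3, one3, mk3, mul4, one4, mk4, mul5, one5, mk5, mul6, one6, mk6, mul7, one7, mk7, mul8, one8, mk8, mul9, one9, mk9, mul10, one10, mk10, mul11, one11, mk11] <;> ring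

theorem mulo (u : Alg k) : u * 1 = u := by
  apply ext12 <;> simp only [add_ap, sub_ap, neg_ap, zero_ap, smul_ap, mul0, one0, mk0, mul1, one1, mk1, mul2, one2, mk2, mul3, one3, mk3, mul4, one4, mk4, mul5, one5, mk5, mul6, one6, mk6, mul7, one7, mk7, mul8, one8, mk8, mul9, one9, mk9, mul10, one10, mk10, mul11, one11, mk11] <;> ring

instance : Ring (Alg k) :=
  { (inferInstance : AddCommGroup (Alg k)) with
    mul := (· * ·)
    one := 1
    mul_assoc := assoc'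
    left_distrib := ldist
    right_distrib := rdist
    zero_mul := zmul
    mul_zero := mulz
    one_mul := omul
    mul_one := mulo }

instance : Algebra k (Alg k) := Algebra.ofModule
  (fun c u v => by apply ext12 <;> simp only [add_ap, sub_ap, neg_ap, zero_ap, smul_ap, mul0, one0, mk0, mul1, one1, mk1, mul2, one2, mk2, mul3, one3, mk3, mul4, one4, mk4, mul5, one5, mk5, mul6, one6, mk6, mul7, one7, mk7, mul8, one8, mk8, mul9, one9, mk9, mul10, one10, mk10, mul11, one11, mk11] <;> ring)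
  (fun c u v => by apply ext12 <;> simp only [add_ap, sub_ap, neg_ap, zero_ap, smul_ap, mul0, one0, mk0, mul1, one1, mk1, mul2, one2, mk2, mul3, one3, mk3, mul4, one4, mk4, mul5, one5, mk5, mul6, one6, mk6, mul7, one7, mk7, mul8, one8, mk8, mul9, one9, mk9, mul10, one10, mk10, mul11, one11, mk11] <;> ring)

theorem nil5 (u : Alg k) (h : u 0 = 0) : u ^ 5 = 0 := by
  have e : u ^ 5 = u * u * u * u * u := by
    simp only [pow_succ, pow_zero, one_mul]
  rw [e]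
  apply ext12 <;> simp only [add_ap, sub_ap, neg_ap, zero_ap, smul_ap, mul0, one0, mk0, mul1, one1, mk1, mul2, one2, mk2, mul3, one3, mk3, mul4, one4, mk4, mul5, one5, mk5, mul6, one6, mk6, mul7, one7, mk7, mul8, one8, mk8, mul9, one9, mk9, mul10, one10, mk10, mul11, one11, mk11, h] <;> ring

theorem unit_of (u : Alg k) (h : u 0 ≠ 0) : IsUnit u := by
  have h1 : IsNilpotent (1 - (u 0)⁻¹ • u) := ⟨5, nil5 _ (by
    rw [sub_ap, smul_ap, one0, inv_mul_cancel₀ h, sub_self])⟩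
  have h2 := h1.isUnit_one_sub
  rw [sub_sub_cancel, Algebra.smul_def] at h2
  have h3 : IsUnit (algebraMap k (Alg k) (u 0)) := (IsUnit.mk0 _ h).map _
  have h4 := h3.mul h2
  rwa [← mul_assoc, ← map_mul, mul_inv_cancel₀ h, map_one, one_mul] at h4

theorem not_unit (u : Alg k) (h : u 0 = 0) : ¬ IsUnit u := by
  intro hu
  obtain ⟨v, hv⟩ := hu.exists_right_inv
  have := congrFun hv 0
  rw [mul0, h, zero_mul, one0] at this
  exact zero_ne_one this

def form : Alg k →ₗ[k] Module.Dual k (Alg k) :=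
  LinearMap.mk₂ k (fun u v => (u * v) 11)
    (fun a b c => by rw [add_mul]; rfl) (fun c a b => by rw [smul_mul_assoc]; rfl)
    (fun a b c => by rw [mul_add]; rfl) (fun c a b => by rw [mul_smul_comm]; rfl)

theorem form_ap (u v : Alg k) : form u v = (u * v) 11 := rfl

theorem tr_comm (u v : Alg k) : (u * v) 11 = (v * u) 11 := by
  rw [mul11, mul11]; ring

theorem form_inj : Function.Injective (form (k := k)) := by
  rw [injective_iff_map_eq_zero]
  intro u hu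
  have e0 : (u * mk ![1, 0, 0, 0, 0, 0, 0, 0, 0, 0, 0, 0] : Alg k) 11 = 0 := LinearMap.congr_fun hu _
  have e1 : (u * mk ![0, 1, 0, 0, 0, 0, 0, 0, 0, 0, 0, 0] : Alg k) 11 = 0 := LinearMap.congr_fun hu _
  have e2 : (u * mk ![0, 0, 1, 0, 0, 0, 0, 0, 0, 0, 0, 0] : Alg k) 11 = 0 := LinearMap.congr_fun hu _
  have e3 : (u * mk ![0, 0, 0, 1, 0, 0, 0, 0, 0, 0, 0, 0] : Alg k) 11 = 0 := LinearMap.congr_fun hu _
  have e4 : (u * mk ![0, 0, 0, 0, 1, 0, 0, 0, 0, 0, 0, 0] : Alg k) 11 = 0 := LinearMap.congr_fun hu _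
  have e5 : (u * mk ![0, 0, 0, 0, 0, 1, 0, 0, 0, 0, 0, 0] : Alg k) 11 = 0 := LinearMap.congr_fun hu _
  have e6 : (u * mk ![0, 0, 0, 0, 0, 0, 1, 0, 0, 0, 0, 0] : Alg k) 11 = 0 := LinearMap.congr_fun hu _
  have e7 : (u * mk ![0, 0, 0, 0, 0, 0, 0, 1, 0, 0, 0, 0] : Alg k) 11 = 0 := LinearMap.congr_fun hu _
  have e8 : (u * mk ![0, 0, 0, 0, 0, 0, 0, 0, 1, 0, 0, 0] : Alg k) 11 = 0 := LinearMap.congr_fun hu _
  have e9 : (u * mk ![0, 0, 0, 0, 0, 0, 0, 0, 0, 1, 0, 0] : Alg k) 11 = 0 := LinearMap.congr_fun hu _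
  have e10 : (u * mk ![0, 0, 0, 0, 0, 0, 0, 0, 0, 0, 1, 0] : Alg k) 11 = 0 := LinearMap.congr_fun hu _
  have e11 : (u * mk ![0, 0, 0, 0, 0, 0, 0, 0, 0, 0, 0, 1] : Alg k) 11 = 0 := LinearMap.congr_fun hu _
  simp only [add_ap, sub_ap, neg_ap, zero_ap, smul_ap, mul0, one0, mk0, mul1, one1, mk1, mul2, one2, mk2, mul3, one3, mk3, mul4, one4, mk4, mul5, one5, mk5, mul6, one6, mk6, mul7, one7, mk7, mul8, one8, mk8, mul9, one9, mk9, mul10, one10, mk10, mul11, one11, mk11] at e0 e1 e2 e3 e4 e5 e6 e7 e8 e9 e10 e11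
  apply ext12 <;> rw [zero_ap]
  · linear_combination (1) * e11
  · linear_combination (1) * e8 + (1) * e9 + (1) * e10
  · linear_combination (1) * e8 + (1) * e10
  · linear_combination (1) * e10
  · linear_combination (-2) * e4 + (1) * e5 + (-1) * e6 + (1) * e7
  · linear_combination (1) * e4 + (1) * e6
  · linear_combination (-1) * e4 + (1) * e5
  · linear_combination (1) * e4
  · linear_combination (1) * e1 + (1) * e2
  · linear_combination (1) * e1
  · linear_combination (1) * e1 + (1) * e2 + (1) * e3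
  · linear_combination (1) * e0

noncomputable def phi : Alg k ≃ₗ[k] Module.Dual k (Alg k) :=
  LinearMap.linearEquivOfInjective form form_inj (Subspace.dual_finrank_eq).symm

theorem phi_ap (u v : Alg k) : phi u v = (u * v) 11 := rfl

def ea : Alg k := mk ![0, 1, 0, 0, 0, 0, 0, 0, 0, 0, 0, 0]
def eb : Alg k := mk ![0, 0, 1, 0, 0, 0, 0, 0, 0, 0, 0, 0]
def ec : Alg k := mk ![0, 0, 0, 1, 0, 0, 0, 0, 0, 0, 0, 0]

theorem ab0 : (ea : Alg k) * eb = 0 := by
  unfold ea eb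
  apply ext12 <;> simp only [add_ap, sub_ap, neg_ap, zero_ap, smul_ap, mul0, one0, mk0, mul1, one1, mk1, mul2, one2, mk2, mul3, one3, mk3, mul4, one4, mk4, mul5, one5, mk5, mul6, one6, mk6, mul7, one7, mk7, mul8, one8, mk8, mul9, one9, mk9, mul10, one10, mk10, mul11, one11, mk11] <;> ring

theorem bc0 : (eb : Alg k) * ec = 0 := by
  unfold eb ec
  apply ext12 <;> simp only [add_ap, sub_ap, neg_ap, zero_ap, smul_ap, mul0, one0, mk0, mul1, one1, mk1, mul2, one2, mk2, mul3, one3, mk3, mul4, one4, mk4, mul5, one5, mk5, mul6, one6, mk6, mul7, one7, mk7, mul8, one8, mk8, mul9, one9, mk9, mul10, one10, mk10, mul11, one11, mk11] <;> ring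

theorem keyA (t : Alg k) (h : ea * t * ec = 0) : ∃ r s : Alg k, t = eb * r + s * eb := by
  have h5 := congrFun h 5
  have h8 := congrFun h 8
  have h9 := congrFun h 9
  have h11 := congrFun h 11
  unfold ea ec at h5 h8 h9 h11
  simp only [add_ap, sub_ap, neg_ap, zero_ap, smul_ap, mul0, one0, mk0, mul1, one1, mk1, mul2, one2, mk2, mul3, one3, mk3, mul4, one4, mk4, mul5, one5, mk5, mul6, one6, mk6, mul7, one7, mk7, mul8, one8, mk8, mul9, one9, mk9, mul10, one10, mk10, mul11, one11, mk11] at h5 h8 h9 h11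
  have t0 : t 0 = 0 := by linear_combination h5
  have t1 : t 1 = 0 := by linear_combination h8
  have t3 : t 3 = 0 := by linear_combination (-1) * h9
  have t5 : t 5 = 0 := by linear_combination (-1) * h11
  refine ⟨mk ![t 2, t 6 - t 4, -t 4, 0, t 10, -t 8, 0, 0, 0, 0, 0, 0], mk ![0, 0, 0, t 7, 0, t 9, 0, 0, t 11, 0, 0, 0], ?_⟩
  unfold eb
  apply ext12 <;> simp only [add_ap, sub_ap, neg_ap, zero_ap, smul_ap, mul0, one0, mk0, mul1, one1, mk1, mul2, one2, mk2, mul3, one3, mk3, mul4, one4, mk4, mul5, one5, mk5, mul6, one6, mk6, mul7, one7, mk7, mul8, one8, mk8, mul9, one9, mk9, mul10, one10, mk10, mul11, one11, mk11, t0, t1, t3, t5] <;> ring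

theorem npA (r : Alg k) : eb + eb * (r * eb) ≠ 0 := by
  intro h
  have h2 := congrFun h 2
  unfold eb at h2
  simp only [add_ap, sub_ap, neg_ap, zero_ap, smul_ap, mul0, one0, mk0, mul1, one1, mk1, mul2, one2, mk2, mul3, one3, mk3, mul4, one4, mk4, mul5, one5, mk5, mul6, one6, mk6, mul7, one7, mk7, mul8, one8, mk8, mul9, one9, mk9, mul10, one10, mk10, mul11, one11, mk11] at h2
  simp at h2

theorem result (k : Type u) [Field k] :
    ∃ (A : Type u) (_ : Ring A) (_ : Algebra k A),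
      Module.Finite k A ∧
      (Nontrivial (A ⧸ Ring.jacobson A) ∧ ∀ q : A ⧸ Ring.jacobson A, q ≠ 0 → IsUnit q) ∧
      (∃ φ : A ≃ₗ[k] Module.Dual k A, ∀ a b c x : A, φ (a * c * b) x = φ c (b * x * a)) ∧
      Module.Injective Aᵐᵒᵖ A ∧
      ∃ M : ModuleCat.{u} Aᵐᵒᵖ, Module.Finite Aᵐᵒᵖ M ∧ ¬ Module.Projective Aᵐᵒᵖ M ∧
        Subsingleton (Ext.{u} M M 1) := by
  have hφ : ∀ a b c x : Alg k, phi (a * c * b) x = phi c (b * x * a) := by
    intro a b c x
    rw [phi_ap, phi_ap, mul_assoc, mul_assoc, tr_comm]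
    simp only [mul_assoc]
  have hJ : ∀ u : Alg k, u 0 = 0 → u ∈ Ring.jacobson (Alg k) := by
    intro u hu
    rw [← Ideal.jacobson_bot, Ideal.mem_jacobson_iff]
    intro y
    have h1 : IsUnit (y * u + 1) := unit_of _ (by
      rw [add_ap, mul0, hu, one0, mul_zero, zero_add]; exact one_ne_zero)
    obtain ⟨z, hz⟩ := h1.exists_left_inv
    refine ⟨z, ?_⟩
    rw [mul_add, mul_one, ← mul_assoc] at hz
    rw [hz, sub_self]
    exact Ideal.zero_mem _
  refine ⟨Alg k, inferInstance, inferInstance, inferInstance, ⟨?_, ?_⟩, ⟨phi, hφ⟩,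
    inj_of_symm phi hφ,
    ModuleCat.of _ ((Alg k)ᵐᵒᵖ ⧸ Submodule.span (Alg k)ᵐᵒᵖ {MulOpposite.op eb}),
    inferInstance, not_proj _ ?_, ext_vanish _ (MulOpposite.op ea) (MulOpposite.op ec) ?_ ?_ ?_⟩
  · have : Nontrivial (Alg k) := ⟨⟨0, 1, fun h => zero_ne_one (congrFun h 0)⟩⟩
    exact Ideal.Quotient.nontrivial_iff.2 (Ring.jacobson_lt_top (Alg k)).ne
  · intro q hq
    obtain ⟨u, rfl⟩ := Ideal.Quotient.mk_surjective q
    by_cases hu : u 0 = 0
    · exact absurd (Ideal.Quotient.eq_zero_iff_mem.2 (hJ u hu)) hq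
    · exact (unit_of u hu).map _
  · intro r h
    apply npA r.unop
    have := congrArg MulOpposite.unop h
    simpa [mul_assoc] using this
  · rw [← MulOpposite.op_mul, bc0, MulOpposite.op_zero]
  · rw [← MulOpposite.op_mul, ab0, MulOpposite.op_zero]
  · intro t ht
    have h1 : ea * t.unop * ec = 0 := by
      have := congrArg MulOpposite.unop ht
      simpa [mul_assoc] using this
    obtain ⟨r, s, hrs⟩ := keyA _ h1
    refine ⟨MulOpposite.op r, MulOpposite.op s, ?_⟩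
    apply MulOpposite.unop_injective
    simpa using hrs

end Pool.Agent.Results.MP_92f261_al.No
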